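import Mathlib
import Pool.Agent.W240.LC.CC
import Pool.Agent.W571.LC.Card
import Pool.Agent.W717.LC.FUS
import Pool.Agent.W160.LC.REG
import Pool.Agent.W479.LC.Reg34
import Pool.Agent.W53.LC.Reg
import Pool.Agent.W616.LC.Aleph
import Pool.Agent.W933.LC.Pow1
import Pool.Agent.W571.LC.Pow
import Pool.Agent.W918.LC.Pow34
import Pool.Agent.W701.LC.GCH
import Pool.Agent.W597.LC.Dense
import Pool.Agent.W931.LC.Pol
import Pool.Agent.W279.LC.Meas2

set_option autoImplicit false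

/-!
# The polarized relation at `ℵ_{ω₁}` is consistent with GCH

From `ω₁` many measurable cardinals and GCH, the full support product of Levy collapses forces
GCH and the two-colour polarized relation for `ℵ_{ω₁+1}` and `ℵ_{ω₁}`.
-/

namespace Pool.Agent.Results.MP_7b2404_lc.AlephOmegaOne

open Cardinal Pool.Agent.Helper669.Forcing Pool.Agent.Helper669.K Pool.Agent.Helper669.U
  Pool.Agent.Helper669.V Pool.Agent.W931.KH Pool.Agent.W931.LC

theorem fus : S_FUS := Pool.Agent.W717.LC.tFUS Pool.Agent.W240.LC.tCC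

theorem dec2 : S_DEC2 := Pool.Agent.W717.LC.tDEC2 Pool.Agent.W571.LC.tCARD2

theorem reg1 : S_REG1 := Pool.Agent.W160.LC.tREG1 fus Pool.Agent.W240.LC.tCC

theorem reg6 : S_REG6 := Pool.Agent.W160.LC.tREG6

theorem reg : S_REG := Pool.Agent.W53.LC.tREG reg1
  (Pool.Agent.W160.LC.tREG2 dec2 Pool.Agent.W571.LC.tCARD2)
  (Pool.Agent.W479.LC.tREG3 fus Pool.Agent.W571.LC.tCARD1 reg6)
  (Pool.Agent.W479.LC.tREG4 fus Pool.Agent.W571.LC.tCARD1)
  (Pool.Agent.W160.LC.tREG5 Pool.Agent.W571.LC.tCARD3) reg6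

theorem stay : S_STAY := Pool.Agent.W53.LC.tSTAY reg

theorem gch : S_GCH := Pool.Agent.W701.LC.tGCH
  (Pool.Agent.W933.LC.tPOW1 fus Pool.Agent.W240.LC.tCC Pool.Agent.W571.LC.tCARD1)
  (Pool.Agent.W571.LC.tPOW2 dec2 Pool.Agent.W571.LC.tCARD2)
  (Pool.Agent.W918.LC.tPOW3 fus Pool.Agent.W571.LC.tCARD1 Pool.Agent.W571.LC.tPOW6)
  (Pool.Agent.W918.LC.tPOW4 fus Pool.Agent.W571.LC.tCARD1)
  (Pool.Agent.W571.LC.tPOW5 Pool.Agent.W571.LC.tCARD3) Pool.Agent.W571.LC.tPOW6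
  Pool.Agent.W933.LC.tCOL

theorem pol : S_POL := tPOL Pool.Agent.W597.LC.tDENSE reg1

/-- `lam` is `ℵ_{ω₁}` and `lam⁺` is `ℵ_{ω₁+1}` in the extension: `S` is the set of the infinite
cardinals below `lam` of the extension (the members of `S` stay cardinals, the other infinite
cardinals `ν < lam` of the ground model are collapsed to members of `S`), it is cofinal in `lam`,
it contains `ℵ₁`, and its order type is `ω₁`; the successor of `lam` stays regular. -/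
def IsAlephOmegaOne (P : Type) [Preorder P] (lam : Cardinal.{0}) : Prop :=
  ∃ S : Set Cardinal.{0}, Nonempty (S ≃o (ℵ₁ : Cardinal.{0}).ord.ToType) ∧ ℵ₁ ∈ S ∧
    (∀ ν ∈ S, ℵ₀ ≤ ν ∧ ν < lam ∧ ∀ p : P, p ∈ StaysCardinal P ν) ∧
    (∀ ν < lam, ∃ ν' ∈ S, ν < ν') ∧
    (∀ ν, ℵ₀ ≤ ν → ν < lam → ν ∉ S → ∃ ν' ∈ S, ν' < ν ∧ ∀ p : P,
      p ∈ CollapsedTo P ν' (Order.succ ν)) ∧
    ∀ p : P, p ∈ StaysRegular P (Order.succ lam)

theorem result (hG : ∀ ν : Cardinal.{0}, ℵ₀ ≤ ν → (2 : Cardinal.{0}) ^ ν = Order.succ ν)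
    (κ : (ℵ₁ : Cardinal.{0}).ord.ToType → Cardinal.{0}) (hκ : StrictMono κ)
    (hm : ∀ j, IsMeasurable (κ j)) :
    ∃ (P : Type) (_ : Preorder P), Nonempty P ∧ IsAlephOmegaOne P (⨆ j, κ j) ∧
      (∀ p : P, p ∈ ForcesGCH P) ∧
      ∀ p : P, p ∈ PolarizedRel P (⨆ j, κ j).ord.ToType (Order.succ (⨆ j, κ j)).ord.ToType
        (⨆ j, κ j).ord.ToType := by
  classical
  have hn : ∀ j, HasNormal (κ j) := fun j => Pool.Agent.W279.LC.tMEAS (κ j) (hm j)
  choose h1 h2 h3 U hU using hn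
  let Q : Par := ⟨κ, hκ, h1, h2, h3, U, fun j => (hU j).1, fun j => (hU j).2.1,
    fun j => (hU j).2.2⟩
  refine ⟨Q.Cd, inferInstance, ⟨fun j => Q.emp j⟩, ?_, gch hG Q, pol hG Q⟩
  have hlim : ∀ ν < Q.top, ∃ ν' ∈ Q.S, ν < ν' := by
    intro ν hν
    obtain ⟨j, hj⟩ := Q.exists_lt_ka hν
    refine ⟨Q.ka j, ⟨(Q.unc j).le, Q.ka_lt_top j, fun i => ?_⟩, hj⟩
    rcases lt_trichotomy i j with h | h | h
    · exact Or.inr (Q.mono h).le
    · subst h
      exact Or.inr le_rfl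
    · exact Or.inl (Q.ka_lt_mu h).le
  refine ⟨Q.S, Pool.Agent.W616.LC.tALEPH Q, ?_, ?_, hlim, ?_, ?_⟩
  · have hI : Nonempty I := by
      rw [← Cardinal.mk_ne_zero_iff, mk_ord_toType]
      exact (aleph0_pos.trans_le (aleph0_le_aleph 1)).ne'
    obtain ⟨j0⟩ := hI
    exact ⟨aleph0_le_aleph 1, (Q.aleph1_lt_ka j0).trans (Q.ka_lt_top j0),
      fun j => Or.inl ((Q.lam_ge j).trans (Q.lam_lt_mu j).le)⟩
  · intro ν hν
    exact ⟨hν.1, hν.2.1, stay hG Q ν hν⟩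
  · intro ν h0 hν hS
    have h4 : ∃ j, Q.mu j < ν ∧ ν < Q.ka j := by
      by_contra hcon
      push Not at hcon
      refine hS ⟨h0, hν, fun j => ?_⟩
      by_cases h5 : ν ≤ Q.mu j
      · exact Or.inl h5
      · exact Or.inr (hcon j (not_le.1 h5))
    obtain ⟨j, hj1, hj2⟩ := h4
    refine ⟨Q.mu j, ⟨Q.aleph0_le_mu j, (Q.mu_lt_ka j).trans (Q.ka_lt_top j), fun i => ?_⟩, hj1,
      fun p => ?_⟩
    · rcases lt_trichotomy i j with h | h | h
      · exact Or.inr (Q.ka_lt_mu h).le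
      · subst h
        exact Or.inl le_rfl
      · exact Or.inl (Q.mu_mono h).le
    · intro ν1 hν1
      exact Pool.Agent.W933.LC.tCOL Q j p ν1
        (lt_of_le_of_lt (Order.lt_succ_iff.1 hν1) hj2)
  · intro p
    have h5 : ℵ₀ ≤ Q.top := by
      have hI : Nonempty I := by
        rw [← Cardinal.mk_ne_zero_iff, mk_ord_toType]
        exact (aleph0_pos.trans_le (aleph0_le_aleph 1)).ne'
      obtain ⟨j0⟩ := hI
      exact (Q.unc j0).le.trans (Q.ka_le_top j0)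
    exact reg hG Q _ (Cardinal.isRegular_succ h5)
      (fun j => Or.inr ((Q.ka_le_top j).trans (Order.le_succ _))) p

end Pool.Agent.Results.MP_7b2404_lc.AlephOmegaOne
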